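import Pool.Agent.NBE.Targets

/-!
# The elementary lower bound for Dirichlet polynomials
-/

set_option autoImplicit false

open MeasureTheory Complex Set Filter Topology

namespace Pool.Agent.NBE

open Pool.Agent.NBL

theorem lower (h : T_EST) (M N : ℕ) (c : ℕ → ℂ) (hM : 1 ≤ M) (hMN : M ≤ N) :
    ∫ t : ℝ, ‖∑ n ∈ Finset.Icc M N, c n * (n : ℂ) ^ (-(1 / 2 + t * Complex.I))‖ ^ 2 /
        (1 / 4 + t ^ 2) ≤
      36 * (N / M : ℝ) * ∫ t : ℝ, ‖riemannZeta (1 / 2 + t * Complex.I) *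
        ∑ n ∈ Finset.Icc M N, c n * (n : ℂ) ^ (-(1 / 2 + t * Complex.I))‖ ^ 2 /
          (1 / 4 + t ^ 2) := by
  set c' : ℕ → ℂ := fun n => if M ≤ n then c n else 0 with hc'
  have e : ∀ s : ℂ, ∑ n ∈ Finset.Icc M N, c n * (n : ℂ) ^ (-s) = DPl N c' s := by
    intro s
    unfold DPl
    have hsub : Finset.Icc M N ⊆ Finset.Icc 1 N := Finset.Icc_subset_Icc hM le_rfl
    rw [← Finset.sum_subset hsub]
    · refine Finset.sum_congr rfl fun n hn => ?_
      rw [Finset.mem_Icc] at hn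
      rw [hc']
      simp only [if_pos hn.1]
    · intro n hn hn2
      rw [Finset.mem_Icc] at hn hn2
      rw [hc']
      simp only
      rw [if_neg (by omega), zero_mul]
  simp_rw [e]
  rw [QP_mellin, QB_mellin]
  have h1 := h N M c' hM hMN fun n hn => by
    rw [hc']
    simp only
    rw [if_neg (by omega)]
  have hp : (0 : ℝ) < 2 * Real.pi := by positivity
  calc 2 * Real.pi * QP N c' ≤ 2 * Real.pi * (36 * ((N : ℝ) / M) * QB N c') := by gcongr
    _ = _ := by ring

end Pool.Agent.NBE
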