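import Pool.Agent.NBE.Targets

/-!
# EST: the quadratic mean estimate
-/

set_option autoImplicit false

open MeasureTheory Complex Set Filter Topology
open scoped ENNReal InnerProductSpace ComplexConjugate

namespace Pool.Agent.NBE

open Pool.Agent.NBL Pool.Agent.NBR

namespace EST_

lemma adm_int {g : ℝ → ℂ} (hg : Adm g) : IntegrableOn (fun t => ‖g t‖ ^ 2) (Ioi 0) :=
  (memLp_two_iff_integrable_sq_norm hg.1.aestronglyMeasurable).1 hg.memLp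

lemma sum_inv_sqrt (L : ℕ) : ∑ n ∈ Finset.Icc 1 L, 1 / √(n : ℝ) ≤ 2 * √(L : ℝ) := by
  induction L with
  | zero => simp
  | succ L ih =>
    rw [Finset.sum_Icc_succ_top (by omega)]
    have h0 : 0 ≤ √(L : ℝ) := Real.sqrt_nonneg _
    have h1 : 0 < √((L + 1 : ℕ) : ℝ) := Real.sqrt_pos.2 (by positivity)
    have h2 : √(L : ℝ) ^ 2 = L := Real.sq_sqrt (Nat.cast_nonneg _)
    have h3 : √((L + 1 : ℕ) : ℝ) ^ 2 = L + 1 := by
      rw [Real.sq_sqrt (Nat.cast_nonneg _)]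
      push_cast
      ring
    have h4 : √(L : ℝ) ≤ √((L + 1 : ℕ) : ℝ) := by
      apply Real.sqrt_le_sqrt
      push_cast
      linarith
    have h5 : 1 / √((L + 1 : ℕ) : ℝ) ≤ 2 * (√((L + 1 : ℕ) : ℝ) - √(L : ℝ)) := by
      rw [div_le_iff₀ h1]
      nlinarith
    linarith

lemma int_inv_sq {a : ℝ} (ha : 0 < a) : ∫ t in Ioi a, t ^ (-2 : ℝ) = 1 / a := by
  rw [integral_Ioi_rpow_of_lt (by norm_num) ha]
  norm_num
  rw [Real.rpow_neg_one]

lemma inv_sq_eq {t : ℝ} (ht : 0 < t) : t ^ (-2 : ℝ) = 1 / t ^ 2 := by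
  rw [Real.rpow_neg ht.le, one_div]
  norm_num

lemma scale_int {g : ℝ → ℂ} {n : ℕ} (hn : 0 < n) :
    ∫ t in Ioi (0 : ℝ), ‖g (n * t)‖ ^ 2 = (1 / (n : ℝ)) * ∫ t in Ioi (0 : ℝ), ‖g t‖ ^ 2 := by
  have hn0 : (0 : ℝ) < n := by exact_mod_cast hn
  have h := integral_comp_mul_left_Ioi (fun t : ℝ => ‖g t‖ ^ 2) 0 hn0
  rw [mul_zero, smul_eq_mul] at h
  rw [h, one_div]

lemma scale_integrable {g : ℝ → ℂ} (hg : IntegrableOn (fun t => ‖g t‖ ^ 2) (Ioi 0)) {n : ℕ}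
    (hn : 0 < n) : IntegrableOn (fun t : ℝ => ‖g (n * t)‖ ^ 2) (Ioi 0) := by
  have hn0 : (0 : ℝ) < n := by exact_mod_cast hn
  have h := (integrableOn_Ioi_comp_mul_left_iff (fun t : ℝ => ‖g t‖ ^ 2) 0 hn0).2
    (by rw [mul_zero]; exact hg)
  exact h

/-- Cauchy-Schwarz with weights -/
lemma cs_sum (L : ℕ) (y : ℕ → ℝ) :
    (∑ n ∈ Finset.Icc 1 L, y n) ^ 2 ≤
      2 * √(L : ℝ) * ∑ n ∈ Finset.Icc 1 L, √(n : ℝ) * y n ^ 2 := by
  have h := Finset.sum_sq_le_sum_mul_sum_of_sq_eq_mul (Finset.Icc 1 L)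
    (r := y) (f := fun n : ℕ => 1 / √(n : ℝ)) (g := fun n : ℕ => √(n : ℝ) * y n ^ 2)
    (fun i _ => by positivity) (fun i _ => by positivity) (fun i hi => by
      have hi1 : 1 ≤ i := (Finset.mem_Icc.1 hi).1
      have h1 : 0 < √(i : ℝ) := Real.sqrt_pos.2 (by exact_mod_cast hi1)
      field_simp)
  refine h.trans (mul_le_mul_of_nonneg_right (sum_inv_sqrt L) ?_)
  exact Finset.sum_nonneg fun i _ => by positivity

end EST_

open EST_ in
theorem p_EST (h_PTW : T_PTW) : T_EST := by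
  intro N M c hM hMN hc
  have hN : 1 ≤ N := hM.trans hMN
  have hM0 : (0 : ℝ) < M := by exact_mod_cast hM
  have hN0 : (0 : ℝ) < N := by exact_mod_cast hN
  have hMN0 : (M : ℝ) ≤ N := by exact_mod_cast hMN
  -- the functions
  set A : ℝ → ℂ := fun t => ∑ k ∈ Finset.Icc 1 N, c k * ch k t with hA
  set R : ℝ → ℂ := fun t => ∑ k ∈ Finset.Icc 1 N, c k * nb k t with hR
  set d : ℂ := ∑ k ∈ Finset.Icc 1 N, c k / k with hd
  have aA : Adm A := Adm.sum _ fun k hk => (adm_ch (Finset.mem_Icc.1 hk).1).mul _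
  have aR : Adm R := Adm.sum _ fun k hk => (adm_nb (Finset.mem_Icc.1 hk).1).mul _
  have iA := adm_int aA
  have iR := adm_int aR
  have hQP : QP N c = ∫ t in Ioi (0 : ℝ), ‖A t‖ ^ 2 := rfl
  have hQB : QB N c = ∫ t in Ioi (0 : ℝ), ‖R t‖ ^ 2 := rfl
  have hQB0 : 0 ≤ QB N c := by
    rw [hQB]
    exact setIntegral_nonneg measurableSet_Ioi fun t _ => by positivity
  have ha0 : (0 : ℝ) < 1 / (2 * N) := by positivity
  have hb0 : (0 : ℝ) < 1 / N := by positivity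
  have hm0 : (0 : ℝ) < 1 / M := by positivity
  have hab : (1 : ℝ) / (2 * N) ≤ 1 / N := by
    apply one_div_le_one_div_of_le hN0
    linarith
  have hbm : (1 : ℝ) / N ≤ 1 / M := one_div_le_one_div_of_le hM0 hMN0
  -- large t
  have fA : ∀ t : ℝ, 1 / M < t → A t = 0 := by
    intro t ht
    refine Finset.sum_eq_zero fun k hk => ?_
    rcases lt_or_ge k M with h | h
    · rw [hc k h, zero_mul]
    · have hk0 : (M : ℝ) ≤ k := by exact_mod_cast h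
      have h1 : (1 : ℝ) / k ≤ 1 / M := one_div_le_one_div_of_le hM0 hk0
      unfold ch
      rw [if_neg (by linarith), mul_zero]
  have fR : ∀ t : ℝ, 1 / M < t → R t = d / t := by
    intro t ht
    have ht0 : 0 < t := hm0.trans ht
    rw [hR, hd]
    simp only
    rw [Finset.sum_div]
    refine Finset.sum_congr rfl fun k hk => ?_
    rcases lt_or_ge k M with h | h
    · rw [hc k h]
      simp
    · have hk0 : (M : ℝ) ≤ k := by exact_mod_cast h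
      have hk1 : (0 : ℝ) < k := hM0.trans_le hk0
      have h1 : 1 < (k : ℝ) * t := by
        have h2 : 1 < M * t := by
          rw [div_lt_iff₀ hM0] at ht
          linarith
        nlinarith
      have h2 : Int.fract (1 / ((k : ℝ) * t)) = 1 / (k * t) := by
        rw [Int.fract_eq_self]
        refine ⟨by positivity, ?_⟩
        rw [div_lt_one (by positivity)]
        exact h1
      unfold nb
      rw [h2]
      have hkc : (k : ℂ) ≠ 0 := by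
        have : (k : ℝ) ≠ 0 := hk1.ne'
        exact_mod_cast this
      have htc : (t : ℂ) ≠ 0 := by exact_mod_cast ht0.ne'
      push_cast
      field_simp
  -- small t
  set C0 : ℂ := ∑ k ∈ Finset.Icc 1 N, c k with hC0
  have sA : ∀ t : ℝ, t ≤ 1 / N → A t = C0 := by
    intro t ht
    refine Finset.sum_congr rfl fun k hk => ?_
    rw [Finset.mem_Icc] at hk
    have hk0 : (0 : ℝ) < k := by exact_mod_cast hk.1
    have hk1 : (k : ℝ) ≤ N := by exact_mod_cast hk.2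
    have h1 : (1 : ℝ) / N ≤ 1 / k := one_div_le_one_div_of_le hk0 hk1
    unfold ch
    rw [if_pos (ht.trans h1), mul_one]
  -- the integral of A
  set J : ℝ := ∫ t in Ioc (1 / (2 * N) : ℝ) (1 / M), ‖A t‖ ^ 2 with hJ
  have iAa : IntegrableOn (fun t => ‖A t‖ ^ 2) (Ioi (1 / (2 * N) : ℝ)) :=
    iA.mono_set (Ioi_subset_Ioi ha0.le)
  have iAm : IntegrableOn (fun t => ‖A t‖ ^ 2) (Ioi (1 / M : ℝ)) :=
    iA.mono_set (Ioi_subset_Ioi hm0.le)
  have iJ : IntegrableOn (fun t => ‖A t‖ ^ 2) (Ioc (1 / (2 * N) : ℝ) (1 / M)) :=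
    iAa.mono_set fun t ht => ht.1
  have e1 : ∫ t in Ioi (0 : ℝ), ‖A t‖ ^ 2 =
      (∫ t in Ioc (0 : ℝ) (1 / (2 * N)), ‖A t‖ ^ 2) + ∫ t in Ioi (1 / (2 * N) : ℝ), ‖A t‖ ^ 2 := by
    rw [← setIntegral_union (Ioc_disjoint_Ioi le_rfl) measurableSet_Ioi
      (iA.mono_set fun t ht => ht.1) iAa, Ioc_union_Ioi_eq_Ioi ha0.le]
  have e2 : ∫ t in Ioi (1 / (2 * N) : ℝ), ‖A t‖ ^ 2 = J := by
    rw [← Ioc_union_Ioi_eq_Ioi (hab.trans hbm), setIntegral_union (Ioc_disjoint_Ioi le_rfl)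
      measurableSet_Ioi iJ iAm]
    have : ∫ t in Ioi (1 / M : ℝ), ‖A t‖ ^ 2 = 0 := by
      refine setIntegral_eq_zero_of_forall_eq_zero fun t ht => ?_
      rw [fA t ht]
      simp
    rw [this, add_zero]
  have e3 : ∫ t in Ioc (0 : ℝ) (1 / (2 * N)), ‖A t‖ ^ 2 = 1 / (2 * N) * ‖C0‖ ^ 2 := by
    rw [setIntegral_congr_fun measurableSet_Ioc (g := fun _ => ‖C0‖ ^ 2) (fun t ht => by
      simp only
      rw [sA t (ht.2.trans hab)]), setIntegral_const, Real.volume_real_Ioc_of_le ha0.le,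
      smul_eq_mul, sub_zero]
  have e4 : ∫ t in Ioc (1 / (2 * N) : ℝ) (1 / N), ‖A t‖ ^ 2 = 1 / (2 * N) * ‖C0‖ ^ 2 := by
    rw [setIntegral_congr_fun measurableSet_Ioc (g := fun _ => ‖C0‖ ^ 2) (fun t ht => by
      simp only
      rw [sA t ht.2]), setIntegral_const, Real.volume_real_Ioc_of_le hab, smul_eq_mul]
    congr 1
    field_simp
    norm_num
  have e5 : ∫ t in Ioc (1 / (2 * N) : ℝ) (1 / N), ‖A t‖ ^ 2 ≤ J := by
    refine setIntegral_mono_set iJ ?_ ?_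
    · exact Filter.Eventually.of_forall fun t => by positivity
    · exact (Ioc_subset_Ioc_right hbm).eventuallyLE
  have e6 : QP N c ≤ 2 * J := by
    rw [hQP, e1, e2, e3]
    rw [e4] at e5
    linarith
  -- the bound for d
  have g1 : ‖d‖ ^ 2 * M ≤ QB N c := by
    have h1 : ∫ t in Ioi (1 / M : ℝ), ‖R t‖ ^ 2 = ‖d‖ ^ 2 * M := by
      rw [setIntegral_congr_fun measurableSet_Ioi (g := fun t : ℝ => ‖d‖ ^ 2 * t ^ (-2 : ℝ))
        (fun t ht => by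
          have ht0 : 0 < t := hm0.trans ht
          simp only
          rw [fR t ht, norm_div, inv_sq_eq ht0, norm_real, Real.norm_of_nonneg ht0.le, div_pow]
          ring), integral_const_mul, int_inv_sq hm0]
      simp
    rw [← h1, hQB]
    refine setIntegral_mono_set iR ?_ ?_
    · exact Filter.Eventually.of_forall fun t => by positivity
    · exact (Ioi_subset_Ioi hm0.le).eventuallyLE
  -- the pointwise bound
  set L : ℕ := 2 * N / M with hL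
  have hL1 : (L : ℝ) ≤ 2 * N / M := by
    rw [hL]
    refine Nat.cast_div_le.trans (le_of_eq ?_)
    push_cast
    rfl
  have hL2 : 2 * (N : ℝ) < M * (L + 1) := by
    have h := Nat.lt_mul_div_succ (2 * N) hM
    rw [← hL] at h
    exact_mod_cast h
  have pw : ∀ t ∈ Ioc (1 / (2 * N) : ℝ) (1 / M), ‖A t‖ ^ 2 ≤ 3 * ‖d‖ ^ 2 * t ^ (-2 : ℝ) +
      3 * √(L : ℝ) * ∑ n ∈ Finset.Icc 1 L, √(n : ℝ) * ‖R (n * t)‖ ^ 2 := by
    intro t ht
    have ht0 : 0 < t := ha0.trans ht.1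
    have h1 : 1 / (M * t) < (L : ℝ) + 1 := by
      rw [div_lt_iff₀ (by positivity)]
      have h2 : 1 < 2 * N * t := by
        have := ht.1
        rw [div_lt_iff₀ (by positivity)] at this
        linarith
      nlinarith
    have h2 := h_PTW N M L c t hM hc ht0 h1
    have h3 : ‖A t‖ ≤ ‖d‖ / t + ∑ n ∈ Finset.Icc 1 L, ‖R (n * t)‖ := h2
    have h4 := cs_sum L fun n => ‖R (n * t)‖
    set S : ℝ := ∑ n ∈ Finset.Icc 1 L, ‖R (n * t)‖ with hS
    have h5 : 0 ≤ S := Finset.sum_nonneg fun n _ => norm_nonneg _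
    have h6 : ‖A t‖ ^ 2 ≤ (‖d‖ / t + S) ^ 2 := pow_le_pow_left₀ (norm_nonneg _) h3 2
    have h7 : (‖d‖ / t + S) ^ 2 ≤ 3 * (‖d‖ / t) ^ 2 + 3 / 2 * S ^ 2 := by
      nlinarith [sq_nonneg (2 * (‖d‖ / t) - S)]
    have h8 : (‖d‖ / t) ^ 2 = ‖d‖ ^ 2 * t ^ (-2 : ℝ) := by
      rw [inv_sq_eq ht0, div_pow]
      ring
    rw [h8] at h7
    nlinarith
  have iS : IntegrableOn (fun t : ℝ => ∑ n ∈ Finset.Icc 1 L, √(n : ℝ) * ‖R (n * t)‖ ^ 2)
      (Ioi 0) := by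
    refine integrable_finsetSum _ fun n hn => ?_
    exact (scale_integrable iR (Finset.mem_Icc.1 hn).1).const_mul _
  have iP : IntegrableOn (fun t : ℝ => t ^ (-2 : ℝ)) (Ioi (1 / (2 * N) : ℝ)) :=
    integrableOn_Ioi_rpow_of_lt (by norm_num) ha0
  have iS' : IntegrableOn (fun t : ℝ => 3 * √(L : ℝ) *
      ∑ n ∈ Finset.Icc 1 L, √(n : ℝ) * ‖R (n * t)‖ ^ 2) (Ioi (1 / (2 * N) : ℝ)) :=
    (iS.mono_set (Ioi_subset_Ioi ha0.le)).const_mul _
  have iP' : IntegrableOn (fun t : ℝ => 3 * ‖d‖ ^ 2 * t ^ (-2 : ℝ)) (Ioi (1 / (2 * N) : ℝ)) :=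
    iP.const_mul _
  have j1 : J ≤ ∫ t in Ioc (1 / (2 * N) : ℝ) (1 / M), (3 * ‖d‖ ^ 2 * t ^ (-2 : ℝ) +
      3 * √(L : ℝ) * ∑ n ∈ Finset.Icc 1 L, √(n : ℝ) * ‖R (n * t)‖ ^ 2) := by
    refine setIntegral_mono_on iJ ?_ measurableSet_Ioc pw
    exact (iP'.add iS').mono_set fun t ht => ht.1
  have j2 : ∫ t in Ioc (1 / (2 * N) : ℝ) (1 / M), (3 * ‖d‖ ^ 2 * t ^ (-2 : ℝ) +
      3 * √(L : ℝ) * ∑ n ∈ Finset.Icc 1 L, √(n : ℝ) * ‖R (n * t)‖ ^ 2) ≤
      ∫ t in Ioi (1 / (2 * N) : ℝ), (3 * ‖d‖ ^ 2 * t ^ (-2 : ℝ) +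
      3 * √(L : ℝ) * ∑ n ∈ Finset.Icc 1 L, √(n : ℝ) * ‖R (n * t)‖ ^ 2) := by
    refine setIntegral_mono_set (iP'.add iS') ?_ ?_
    · filter_upwards [ae_restrict_mem measurableSet_Ioi] with t ht
      have ht0 : 0 < t := ha0.trans ht
      have h1 : 0 ≤ t ^ (-2 : ℝ) := Real.rpow_nonneg ht0.le _
      have h2 : 0 ≤ ∑ n ∈ Finset.Icc 1 L, √(n : ℝ) * ‖R (n * t)‖ ^ 2 :=
        Finset.sum_nonneg fun n _ => by positivity
      have h3 : 0 ≤ √(L : ℝ) := Real.sqrt_nonneg _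
      simp only [Pi.zero_apply]
      positivity
    · exact (show Ioc (1 / (2 * N) : ℝ) (1 / M) ⊆ Ioi (1 / (2 * N) : ℝ) from
        fun t ht => ht.1).eventuallyLE
  have j3 : ∫ t in Ioi (1 / (2 * N) : ℝ), (3 * ‖d‖ ^ 2 * t ^ (-2 : ℝ) +
      3 * √(L : ℝ) * ∑ n ∈ Finset.Icc 1 L, √(n : ℝ) * ‖R (n * t)‖ ^ 2) =
      3 * ‖d‖ ^ 2 * (2 * N) + 3 * √(L : ℝ) *
        ∫ t in Ioi (1 / (2 * N) : ℝ), ∑ n ∈ Finset.Icc 1 L, √(n : ℝ) * ‖R (n * t)‖ ^ 2 := by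
    rw [integral_add iP' iS', integral_const_mul, integral_const_mul, int_inv_sq ha0]
    congr 2
    simp
  have j4 : ∫ t in Ioi (1 / (2 * N) : ℝ), ∑ n ∈ Finset.Icc 1 L, √(n : ℝ) * ‖R (n * t)‖ ^ 2 ≤
      ∫ t in Ioi (0 : ℝ), ∑ n ∈ Finset.Icc 1 L, √(n : ℝ) * ‖R (n * t)‖ ^ 2 := by
    refine setIntegral_mono_set iS ?_ ?_
    · exact Filter.Eventually.of_forall fun t => Finset.sum_nonneg fun n _ => by positivity
    · exact (Ioi_subset_Ioi ha0.le).eventuallyLE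
  have j5 : ∫ t in Ioi (0 : ℝ), ∑ n ∈ Finset.Icc 1 L, √(n : ℝ) * ‖R (n * t)‖ ^ 2 =
      (∑ n ∈ Finset.Icc 1 L, 1 / √(n : ℝ)) * QB N c := by
    rw [integral_finsetSum _ fun n hn =>
      (scale_integrable iR (Finset.mem_Icc.1 hn).1).const_mul _, Finset.sum_mul]
    refine Finset.sum_congr rfl fun n hn => ?_
    have hn1 : 1 ≤ n := (Finset.mem_Icc.1 hn).1
    have hn0 : (0 : ℝ) < n := by exact_mod_cast hn1
    rw [integral_const_mul, scale_int hn1, ← hQB, ← mul_assoc]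
    congr 1
    have h1 : 0 < √(n : ℝ) := Real.sqrt_pos.2 hn0
    have h2 : √(n : ℝ) * √(n : ℝ) = n := Real.mul_self_sqrt hn0.le
    rw [mul_one_div, div_eq_div_iff hn0.ne' h1.ne', one_mul, h2]
  have hsL : 0 ≤ √(L : ℝ) := Real.sqrt_nonneg _
  have j6 : (∑ n ∈ Finset.Icc 1 L, 1 / √(n : ℝ)) * QB N c ≤ 2 * √(L : ℝ) * QB N c :=
    mul_le_mul_of_nonneg_right (sum_inv_sqrt L) hQB0
  have j7 : J ≤ 3 * ‖d‖ ^ 2 * (2 * N) + 3 * √(L : ℝ) * (2 * √(L : ℝ) * QB N c) := by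
    refine (j1.trans j2).trans ?_
    rw [j3]
    have := mul_le_mul_of_nonneg_left ((j4.trans (le_of_eq j5)).trans j6)
      (by positivity : (0 : ℝ) ≤ 3 * √(L : ℝ))
    linarith
  have hLL : √(L : ℝ) * √(L : ℝ) = L := Real.mul_self_sqrt (Nat.cast_nonneg _)
  have j8 : J ≤ 6 * N * ‖d‖ ^ 2 + 6 * L * QB N c := by
    have : 3 * √(L : ℝ) * (2 * √(L : ℝ) * QB N c) = 6 * (√(L : ℝ) * √(L : ℝ)) * QB N c := by ring
    rw [this, hLL] at j7
    linarith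
  have j9 : N * ‖d‖ ^ 2 ≤ (N : ℝ) / M * QB N c := by
    have h1 : ‖d‖ ^ 2 ≤ QB N c / M := by
      rw [le_div_iff₀ hM0]
      exact g1
    have h2 := mul_le_mul_of_nonneg_left h1 hN0.le
    have h3 : (N : ℝ) * (QB N c / M) = (N : ℝ) / M * QB N c := by ring
    linarith
  have j10 : (L : ℝ) * QB N c ≤ 2 * ((N : ℝ) / M) * QB N c := by
    refine mul_le_mul_of_nonneg_right (hL1.trans (le_of_eq ?_)) hQB0
    ring
  have : 36 * ((N : ℝ) / M) * QB N c = 2 * (6 * ((N : ℝ) / M * QB N c) +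
      6 * (2 * ((N : ℝ) / M) * QB N c)) := by ring
  rw [this]
  linarith

end Pool.Agent.NBE
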