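import Pool.Agent.NBE.Targets

/-!
# Project NBE, target FLR: the Möbius function and floors
-/

set_option autoImplicit false

open MeasureTheory Complex Set Filter Topology
open scoped ENNReal InnerProductSpace ComplexConjugate

namespace Pool.Agent.NBE

open Pool.Agent.NBL Pool.Agent.NBR

/-- FLR: the Möbius function and floors -/
theorem p_FLR : T_FLR := by
  intro X L hXL
  have h1 : ∀ n : ℕ, ((X / n : ℕ) : ℤ) = ∑ m ∈ Finset.Ioc 0 X, if n ∣ m then (1 : ℤ) else 0 := by
    intro n
    rw [← Nat.Ioc_filter_dvd_card_eq_div X n, Finset.sum_boole]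
  have h2 : ∀ m : ℕ, ∑ n ∈ m.divisors, ArithmeticFunction.moebius n = if m = 1 then 1 else 0 := by
    intro m
    have h3 := congrArg (fun f : ArithmeticFunction ℤ => f m)
      ArithmeticFunction.moebius_mul_coe_zeta
    simp only [ArithmeticFunction.coe_mul_zeta_apply, ArithmeticFunction.one_apply] at h3
    exact h3
  calc ∑ n ∈ Finset.Icc 1 L, ArithmeticFunction.moebius n * ((X / n : ℕ) : ℤ)
      = ∑ n ∈ Finset.Icc 1 L, ∑ m ∈ Finset.Ioc 0 X,
          if n ∣ m then ArithmeticFunction.moebius n else 0 := by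
        refine Finset.sum_congr rfl fun n _ => ?_
        rw [h1, Finset.mul_sum]
        refine Finset.sum_congr rfl fun m _ => ?_
        split_ifs <;> simp
    _ = ∑ m ∈ Finset.Ioc 0 X, ∑ n ∈ Finset.Icc 1 L,
          if n ∣ m then ArithmeticFunction.moebius n else 0 := Finset.sum_comm
    _ = ∑ m ∈ Finset.Ioc 0 X, if m = 1 then 1 else 0 := by
        refine Finset.sum_congr rfl fun m hm => ?_
        rw [Finset.mem_Ioc] at hm
        rw [← h2 m, ← Finset.sum_filter]
        refine Finset.sum_congr ?_ fun _ _ => rfl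
        ext n
        simp only [Finset.mem_filter, Finset.mem_Icc, Nat.mem_divisors]
        constructor
        · rintro ⟨_, h4⟩
          exact ⟨h4, by omega⟩
        · rintro ⟨h4, _⟩
          exact ⟨⟨Nat.pos_of_dvd_of_pos h4 hm.1, (Nat.le_of_dvd hm.1 h4).trans (hm.2.trans hXL)⟩,
            h4⟩
    _ = if 1 ≤ X then 1 else 0 := by
        rw [Finset.sum_ite_eq']
        simp only [Finset.mem_Ioc, zero_lt_one, true_and]

end Pool.Agent.NBE
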