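import Pool.Agent.NBE.Targets
import Pool.Agent.Ben.P_MZF
import Pool.Agent.Ben.P_MZ
import Pool.Agent.Ben.P_TAIL
import Pool.Agent.Ben.P_MPT
import Pool.Agent.Ben.P_MGF
import Pool.Agent.Ben.P_MAVG

/-!
# FOU: the fourth moment of zeta on `[0, T]`
-/

set_option autoImplicit false

open MeasureTheory Complex Set Filter Topology
open scoped ENNReal InnerProductSpace ComplexConjugate

namespace Pool.Agent.NBE

open Pool.Agent.NBL Pool.Agent.NBR

namespace FOU_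

/-- from the symmetric interval and real exponents to `∫ 0..T` and natural ones -/
theorem core (f : ℝ → ℝ) (hf : Continuous f) (hf0 : ∀ t, 0 ≤ f t)
    (h : ∀ ε : ℝ, 0 < ε → ∃ C : ℝ, 0 ≤ C ∧ ∀ Y : ℝ, 1 ≤ Y →
      ∫ t in (-Y)..Y, f t ^ (4 : ℝ) ≤ C * Y ^ (1 + 4 * (0 + ε))) (ε : ℝ) (hε : 0 < ε) :
    ∃ C : ℝ, ∀ T : ℝ, 1 ≤ T → ∫ t in (0 : ℝ)..T, f t ^ (2 * 2) ≤ C * T ^ (1 + ε) := by
  obtain ⟨C, -, hC⟩ := h (ε / 4) (by linarith)
  refine ⟨C, fun T hT => ?_⟩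
  have h1 := hC T hT
  have e1 : (1 : ℝ) + 4 * (0 + ε / 4) = 1 + ε := by ring
  rw [e1] at h1
  refine le_trans ?_ h1
  have e2 : ∀ t, f t ^ (4 : ℝ) = f t ^ (2 * 2) := by
    intro t
    rw [← Real.rpow_natCast]
    norm_num
  simp only [e2]
  have hg : Continuous fun t => f t ^ (2 * 2) := hf.pow _
  have e3 : ∫ t in (-T)..T, f t ^ (2 * 2) =
      (∫ t in (-T)..(0 : ℝ), f t ^ (2 * 2)) + ∫ t in (0 : ℝ)..T, f t ^ (2 * 2) :=
    (intervalIntegral.integral_add_adjacent_intervals (hg.intervalIntegrable _ _)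
      (hg.intervalIntegrable _ _)).symm
  have e4 : 0 ≤ ∫ t in (-T)..(0 : ℝ), f t ^ (2 * 2) :=
    intervalIntegral.integral_nonneg (by linarith) fun t _ => pow_nonneg (hf0 t) _
  rw [e3]
  linarith

theorem cont : Continuous fun t : ℝ => ‖riemannZeta (1 / 2 + t * I)‖ := by
  refine Continuous.norm (continuous_iff_continuousAt.mpr fun t => ?_)
  have h : (1 / 2 + t * I : ℂ) ≠ 1 := by
    intro h
    have := congrArg Complex.re h
    norm_num at this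
  have h1 : ContinuousAt (fun t : ℝ => (1 / 2 + t * I : ℂ)) t := by fun_prop
  exact ContinuousAt.comp (f := fun t : ℝ => (1 / 2 + t * I : ℂ))
    (differentiableAt_riemannZeta h).continuousAt h1

end FOU_

/-- **FOU** -/
theorem p_FOU : T_FOU := by
  have hZM : Pool.Agent.Ben.ZM 4 0 := Pool.Agent.Ben.p_MZF
    (Pool.Agent.Ben.p_MZ Pool.Agent.Ben.p_TAIL Pool.Agent.Ben.p_MPT) Pool.Agent.Ben.p_MGF
  intro ε hε
  refine FOU_.core NBM.Z FOU_.cont (fun t => norm_nonneg _) (fun ε' hε' => ?_) ε hε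
  obtain ⟨C, hC0, hC⟩ := Pool.Agent.Ben.p_MAVG 4 0 (by norm_num) le_rfl hZM ε' hε'
  exact ⟨C, hC0, fun Y hY => (hC Y hY).1⟩

end Pool.Agent.NBE
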