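import Mathlib
import Pool.Agent.NBR.Targets

/-!
# The unconditional part with explicit exponents: targets

Goal 1 (`T_EST`): `I(D) ≤ 36 (N / M) I(ζ D)` for every `D(s) = ∑_{M ≤ n ≤ N} c_n n ^ (-s)`.
Goal 2 (`T_TWO`): for all `D` of length `N` with coefficients in a subspace of codimension
`≤ N ^ θ`, `θ > max 0 (1 - 2 ε)`: `N ^ (-2 ε) I(D) ≤ I(ζ D) ≤ N ^ ε I(D)`.
Goal 3 (`T_LOG`): `I(D) / K ≤ I(ζ D) ≤ K log N I(D)` in codimension `≤ ε N`.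
`QP N c = I(D) / 2π`, `QB N c = I(ζ D) / 2π` (`NBL.QP_mellin`, `NBL.QB_mellin`).
-/

set_option autoImplicit false

open MeasureTheory Complex Set Filter Topology
open scoped ENNReal InnerProductSpace ComplexConjugate

namespace Pool.Agent.NBE

open Pool.Agent.NBL Pool.Agent.NBR

/-- FLR: the Möbius function and floors.

Proof: `X / n` is the number of multiples of `n` in `Icc 1 X`, so the sum is
`∑ m ∈ Icc 1 X, ∑ n ∈ divisors m, μ n = ∑ m ∈ Icc 1 X, (if m = 1 then 1 else 0)`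
(`ArithmeticFunction.moebius_mul_coe_zeta` / `ArithmeticFunction.sum_moebius...`; terms with
`n > X` vanish; or induction on `X`: `X / n` jumps by one exactly when `n ∣ X`, `Nat.succ_div`). -/
def T_FLR : Prop := ∀ X L : ℕ, X ≤ L →
  ∑ n ∈ Finset.Icc 1 L, ArithmeticFunction.moebius n * ((X / n : ℕ) : ℤ) = if 1 ≤ X then 1 else 0

/-- MOB (hypothesis T_FLR).

Proof: `L ≥ 1`: `L ∑ μ n / n = ∑ μ n (L / n : ℕ) + ∑ μ n fract(L / n) = 1 + ∑ ..`, the term `n = 1`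
of the last sum is `0` and the others are at most `1` in absolute value, so the absolute value is
at most `1 + (L - 1) = L`. -/
def T_MOB : Prop := ∀ L : ℕ, |∑ n ∈ Finset.Icc 1 L, (ArithmeticFunction.moebius n : ℝ) / n| ≤ 1

/-- INV (hypothesis T_FLR): Möbius inversion (`NBL.ch k t` is the indicator of `t ≤ 1/k`).

Proof: exchange the sums; for `k < M` both sides vanish; for `k ≥ M` let `X = ⌊1 / (k t)⌋₊`, so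
`X ≤ L` since `1 / (k t) ≤ 1 / (M t) < L + 1`; `⌊1 / (k (n t))⌋₊ = X / n` (`Nat.floor_div_natCast`)
and `ch k t = 1` iff `t ≤ 1 / k` iff `1 ≤ 1 / (k t)` iff `1 ≤ X`. -/
def T_INV : Prop := ∀ (N M L : ℕ) (c : ℕ → ℂ) (t : ℝ), 1 ≤ M → (∀ n < M, c n = 0) → 0 < t →
  1 / (M * t) < (L : ℝ) + 1 →
  ∑ k ∈ Finset.Icc 1 N, c k * ch k t = ∑ n ∈ Finset.Icc 1 L,
    (ArithmeticFunction.moebius n : ℂ) *
      ∑ k ∈ Finset.Icc 1 N, c k * ((⌊1 / ((k : ℝ) * (n * t))⌋₊ : ℕ) : ℂ)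

/-- PTW (hypotheses T_INV, T_MOB): pointwise bound (`NBL.nb k t = fract (1 / (k t))`).

Proof: put `d = ∑ c k / k`. If `n t > 1 / M` the floors in T_INV vanish for all `k ≥ M`. If
`n t ≤ 1 / M` then `∑ c k ⌊1 / (k (n t))⌋ = d / (n t) - ∑ c k nb k (n t)` (`Int.fract`,
`1 / (k n t) > 0`, natural floor = integer floor). So the left side of T_INV is
`(d / t) ∑ μ n / n - ∑ μ n (∑ c k nb k (n t))`, both sums over `n ∈ Icc 1 L` with `n t ≤ 1 / M`,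
i.e. over `Icc 1 ⌊1 / (M t)⌋₊` (`⌊1 / (M t)⌋₊ ≤ L`); the first is at most `1` by T_MOB. -/
def T_PTW : Prop := ∀ (N M L : ℕ) (c : ℕ → ℂ) (t : ℝ), 1 ≤ M → (∀ n < M, c n = 0) → 0 < t →
  1 / (M * t) < (L : ℝ) + 1 →
  ‖∑ k ∈ Finset.Icc 1 N, c k * ch k t‖ ≤ ‖∑ k ∈ Finset.Icc 1 N, c k / k‖ / t +
    ∑ n ∈ Finset.Icc 1 L, ‖∑ k ∈ Finset.Icc 1 N, c k * nb k (n * t)‖

/-- EST (hypothesis T_PTW).

Proof: `d = ∑ c k / k`, `a t = ∑ c k * ch k t`, `ρ t = ∑ c k * nb k t` (both square integrable on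
`Ioi 0`: `Adm.sum`, `adm_ch`, `adm_nb`, `Adm.memLp`). For `t > 1 / M`: `a t = 0` and `ρ t = d / t`
(all `k` with `c k ≠ 0` have `0 < 1 / (k t) < 1`), so
`‖d‖ ^ 2 M = ∫ t in Ioi (1/M), ‖d / t‖ ^ 2 ≤ QB N c`. Let `L = 2 N / M` (natural division; then
`2 N / M < L + 1` as reals) and `1 / (2 N) < t ≤ 1 / M`: by T_PTW, `(x + y)² ≤ 3 x² + (3/2) y²` and
Cauchy-Schwarz `(∑_{n ≤ L} y_n)² ≤ (∑ n^(-1/2)) ∑ n^(1/2) y_n²`, with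
`∫ ‖ρ (n t)‖² dt = QB N c / n` and `∑_{n ≤ L} n^(-1/2) ≤ 2 √L`:
`∫ t in Ioc (1/(2N)) (1/M), ‖a t‖² ≤ 3 ‖d‖² 2 N + (3/2) 4 L QB ≤ 18 (N / M) QB N c`. For
`t ≤ 1 / N` all indicators are `1` and `a t` is constant, so
`∫ over (0, 1/(2N)] = ∫ over (1/(2N), 1/N] ≤ ∫ over (1/(2N), 1/M]`. Hence `QP ≤ 36 (N / M) QB`. -/
def T_EST : Prop := ∀ (N M : ℕ) (c : ℕ → ℂ), 1 ≤ M → M ≤ N → (∀ n < M, c n = 0) →
  QP N c ≤ 36 * ((N : ℝ) / M) * QB N c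

/-- SPC: eigenvalues and traces.

Proof: as the last part of `NBL.almost_all_full` (NBL/Full3.lean) with `v`, `lam` from
`NBM.p_SPE` (NBM/P_SPE.lean, import it): `J = {i | lam i ≤ Λ}`, the others satisfy
`card * Λ ^ k ≤ ∑ lam i ^ k = trace ≤ X`; `V` = span of `v i`, `i ∈ J`;
`Qf a = ∑ lam i ‖⟪v i, a⟫‖² ≤ Λ ∑ ‖⟪v i, a⟫‖² = Λ ∑ ‖a i‖²`. -/
def T_SPC : Prop := ∀ (k m : ℕ) (X Λ : ℝ), 0 < Λ → ((NBM.G m) ^ k).trace ≤ X →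
  ∃ V : Submodule ℂ (Fin m → ℂ), (m : ℝ) - X / Λ ^ k ≤ Module.finrank ℂ V ∧
    ∀ a ∈ V, NBM.Qf m a ≤ Λ * ∑ i, ‖a i‖ ^ 2

/-- UPT (hypothesis T_SPC): traces bound multiplication by zeta outside a small subspace.

Proof: as `NBL.almost_all_D` (NBL/Full4.lean): `N = m + 1`, `V` from T_SPC with
`Λ = N ^ ε / 2` and `X = C m ^ (1 + η)` (`NBM.Tr k 1` with small `η`), the subspace is
`V.map (NBL.Lm m)`; its codimension is at most `1 + 2 ^ k C N ^ (1 + η - k ε) ≤ N ^ θ` for large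
`N` (`θ > 0`, `1 + η - k ε < θ`). `QB_dcf`, `QP_dcf`, `Rm_two`, `QP_mellin`, `QB_mellin`:
`q ≤ Λ S ≤ Λ 2 R`. -/
def T_UPT : Prop := ∀ k : ℕ, NBM.Tr k 1 → ∀ ε θ : ℝ, 0 < ε → 0 < θ → 1 - k * ε < θ →
  ∃ N₀ : ℕ, ∀ N : ℕ, N₀ ≤ N → ∃ V : Submodule ℂ (Fin N → ℂ),
    (N : ℝ) - (N : ℝ) ^ θ ≤ Module.finrank ℂ V ∧ ∀ c ∈ V,
      ∫ t : ℝ, ‖riemannZeta (1 / 2 + t * I) * DF N c (1 / 2 + t * I)‖ ^ 2 / (1 / 4 + t ^ 2) ≤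
        (N : ℝ) ^ ε * ∫ t : ℝ, ‖DF N c (1 / 2 + t * I)‖ ^ 2 / (1 / 4 + t ^ 2)

/-- FOU: the fourth moment of zeta.

Proof: in the tree: `Ben.p_MZF (Ben.p_MZ Ben.p_TAIL Ben.p_MPT) Ben.p_MGF : Ben.ZM 4 0` (files
Pool/Agent/Ben/P_MZF, P_MZ, P_TAIL, P_MPT, P_MGF) and `Ben.p_MAVG : Ben.M_AVG` with `q = 4`,
`a = 0` gives `∫ t in (-Y)..Y, ‖ζ‖ ^ (4 : ℝ) ≤ C Y ^ (1 + 4 ε)`; `∫ 0..T ≤ ∫ (-T)..T`
(nonnegative continuous integrand), `Real.rpow_natCast`. -/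
def T_FOU : Prop := NBM.Mom 2 1

/-- WMI: subspaces.

Proof: `V ⊓ W` with `W = {c | ∀ i, (i : ℕ) + 1 < M → c i = 0}` (kernel of the projection to the
coordinates `i < M - 1`, so of codimension at most `M - 1`,
`LinearMap.finrank_range_add_finrank_ker`)
and `Submodule.finrank_sup_add_finrank_inf_eq`, `finrank (V ⊔ W) ≤ N`. -/
def T_WMI : Prop := ∀ (N M : ℕ) (V : Submodule ℂ (Fin N → ℂ)), 1 ≤ M →
  ∃ U : Submodule ℂ (Fin N → ℂ), U ≤ V ∧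
    (Module.finrank ℂ V : ℝ) - ((M : ℝ) - 1) ≤ Module.finrank ℂ U ∧
    ∀ c ∈ U, ∀ i : Fin N, (i : ℕ) + 1 < M → c i = 0

/-- TWO (hypotheses T_EST, T_WMI, T_UPT and `NBM.Tr 2 1`): the two-sided inequality.

Proof: `θ' = (max 0 (1 - 2 ε) + θ) / 2`, `V` from T_UPT (`k = 2`) for `θ'`,
`M = max 1 ⌈36 N ^ (1 - 2 ε)⌉₊` (`M ≤ N` for large `N`, `M - 1 ≤ 36 N ^ (1 - 2 ε)`), `U` from
T_WMI: its codimension is at most `N ^ θ' + 36 N ^ (1 - 2 ε) ≤ N ^ θ` for large `N`. For `c ∈ U` use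
T_EST for the sequence `NBL.xa N c` (set to `0` at `0`; `DF N c = DPl N (xa N c)` by `NBL.fin_sum`,
`NBL.xa_apply`), `QP_mellin`, `QB_mellin`, and `36 N / M ≤ N ^ (2 ε)`. -/
def T_TWO : Prop := ∀ ε θ : ℝ, 0 < ε → 0 < θ → 1 - 2 * ε < θ →
  ∃ N₀ : ℕ, ∀ N : ℕ, N₀ ≤ N → ∃ V : Submodule ℂ (Fin N → ℂ),
    (N : ℝ) - (N : ℝ) ^ θ ≤ Module.finrank ℂ V ∧ ∀ c ∈ V,
      (N : ℝ) ^ (-(2 * ε)) * ∫ t : ℝ, ‖DF N c (1 / 2 + t * I)‖ ^ 2 / (1 / 4 + t ^ 2) ≤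
        ∫ t : ℝ, ‖riemannZeta (1 / 2 + t * I) * DF N c (1 / 2 + t * I)‖ ^ 2 / (1 / 4 + t ^ 2) ∧
      ∫ t : ℝ, ‖riemannZeta (1 / 2 + t * I) * DF N c (1 / 2 + t * I)‖ ^ 2 / (1 / 4 + t ^ 2) ≤
        (N : ℝ) ^ ε * ∫ t : ℝ, ‖DF N c (1 / 2 + t * I)‖ ^ 2 / (1 / 4 + t ^ 2)

/-- LOG (hypotheses T_EST, T_WMI): constants in codimension `ε N`.

Proof: `V` from `NBL.almost_all_D` for `ε / 2` (its second inequality), `M = max 1 ⌊ε N / 2⌋₊`,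
`U` from T_WMI, then T_EST as in TWO with `36 N / M ≤ 144 / ε` for `N ≥ 4 / ε`. (`ε ≥ 2` is
trivial: take the zero subspace; or replace `ε` by `min ε 1` first.) -/
def T_LOG : Prop := ∀ ε : ℝ, 0 < ε → ∃ K N₀ : ℕ, ∀ N : ℕ, N₀ ≤ N →
  ∃ V : Submodule ℂ (Fin N → ℂ), (1 - ε) * N ≤ Module.finrank ℂ V ∧ ∀ c ∈ V,
    ∫ t : ℝ, ‖DF N c (1 / 2 + t * I)‖ ^ 2 / (1 / 4 + t ^ 2) ≤
      (K : ℝ) * (∫ t : ℝ, ‖riemannZeta (1 / 2 + t * I) * DF N c (1 / 2 + t * I)‖ ^ 2 /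
        (1 / 4 + t ^ 2)) ∧
    ∫ t : ℝ, ‖riemannZeta (1 / 2 + t * I) * DF N c (1 / 2 + t * I)‖ ^ 2 / (1 / 4 + t ^ 2) ≤
      K * Real.log N * ∫ t : ℝ, ‖DF N c (1 / 2 + t * I)‖ ^ 2 / (1 / 4 + t ^ 2)

end Pool.Agent.NBE
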