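import Mathlib
import Pool.Agent.NBE.Targets

/-!
# INV: Möbius inversion for the Nyman-Beurling functions
-/

set_option autoImplicit false

open MeasureTheory Complex Set Filter Topology
open scoped ENNReal InnerProductSpace ComplexConjugate

namespace Pool.Agent.NBE

open Pool.Agent.NBL Pool.Agent.NBR

namespace INV_

lemma one (h_FLR : T_FLR) (M L k : ℕ) (t : ℝ) (hM : 1 ≤ M) (hk : M ≤ k) (ht : 0 < t)
    (hL : 1 / (M * t) < (L : ℝ) + 1) :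
    ∑ n ∈ Finset.Icc 1 L, (ArithmeticFunction.moebius n : ℂ) *
      ((⌊1 / ((k : ℝ) * (n * t))⌋₊ : ℕ) : ℂ) = ch k t := by
  have hM' : (0 : ℝ) < M := by exact_mod_cast hM
  have hk' : (M : ℝ) ≤ k := by exact_mod_cast hk
  have hk0 : (0 : ℝ) < k := lt_of_lt_of_le hM' hk'
  have hX0 : (0 : ℝ) ≤ 1 / (k * t) := by positivity
  have hXL : ⌊1 / ((k : ℝ) * t)⌋₊ ≤ L := by
    have h1 : 1 / ((k : ℝ) * t) ≤ 1 / (M * t) :=
      one_div_le_one_div_of_le (by positivity) (mul_le_mul_of_nonneg_right hk' ht.le)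
    have h2 : 1 / ((k : ℝ) * t) < ((L + 1 : ℕ) : ℝ) := by
      push_cast
      exact lt_of_le_of_lt h1 hL
    exact Nat.lt_succ_iff.mp ((Nat.floor_lt hX0).2 h2)
  have h3 := h_FLR ⌊1 / ((k : ℝ) * t)⌋₊ L hXL
  have h4 : ∀ n : ℕ, ⌊1 / ((k : ℝ) * (n * t))⌋₊ = ⌊1 / ((k : ℝ) * t)⌋₊ / n := by
    intro n
    rw [← Nat.floor_div_natCast]
    congr 1
    rw [div_div]
    congr 1
    ring
  have h5 : ∑ n ∈ Finset.Icc 1 L, (ArithmeticFunction.moebius n : ℂ) *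
      ((⌊1 / ((k : ℝ) * (n * t))⌋₊ : ℕ) : ℂ) =
      ((∑ n ∈ Finset.Icc 1 L, ArithmeticFunction.moebius n *
        ((⌊1 / ((k : ℝ) * t)⌋₊ / n : ℕ) : ℤ) : ℤ) : ℂ) := by
    rw [Int.cast_sum]
    refine Finset.sum_congr rfl fun n _ => ?_
    rw [h4 n, Int.cast_mul, Int.cast_natCast]
  rw [h5, h3]
  unfold ch
  have h6 : 1 ≤ ⌊1 / ((k : ℝ) * t)⌋₊ ↔ t ≤ 1 / k := by
    rw [Nat.one_le_floor_iff, one_le_div (by positivity), le_div_iff₀ hk0, mul_comm]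
  by_cases hc : t ≤ 1 / k
  · rw [if_pos hc, if_pos (h6.2 hc)]
    simp
  · rw [if_neg hc, if_neg (fun h => hc (h6.1 h))]
    simp

end INV_

theorem p_INV (h_FLR : T_FLR) : T_INV := by
  intro N M L c t hM hc ht hL
  have h1 : ∑ n ∈ Finset.Icc 1 L, (ArithmeticFunction.moebius n : ℂ) *
      ∑ k ∈ Finset.Icc 1 N, c k * ((⌊1 / ((k : ℝ) * (n * t))⌋₊ : ℕ) : ℂ) =
      ∑ k ∈ Finset.Icc 1 N, c k * ∑ n ∈ Finset.Icc 1 L, (ArithmeticFunction.moebius n : ℂ) *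
        ((⌊1 / ((k : ℝ) * (n * t))⌋₊ : ℕ) : ℂ) := by
    simp only [Finset.mul_sum]
    rw [Finset.sum_comm]
    refine Finset.sum_congr rfl fun k _ => Finset.sum_congr rfl fun n _ => ?_
    ring
  rw [h1]
  refine Finset.sum_congr rfl fun k _ => ?_
  by_cases hk : k < M
  · rw [hc k hk, zero_mul, zero_mul]
  · rw [INV_.one h_FLR M L k t hM (not_lt.mp hk) ht hL]

end Pool.Agent.NBE
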