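import Pool.Agent.NBE.Targets
import Pool.Agent.NBL.Full4
import Pool.Agent.NBL.Nb3

/-!
# NBE, target `T_LOG`
-/

set_option autoImplicit false

open MeasureTheory Complex Set Filter Topology
open scoped ENNReal InnerProductSpace ComplexConjugate

namespace Pool.Agent.NBE

open Pool.Agent.NBL Pool.Agent.NBR

namespace LOG_

/-- the coefficient sequence, zero at `0` -/
noncomputable def xc (N : ℕ) (c : Fin N → ℂ) (n : ℕ) : ℂ := if n = 0 then 0 else xa N c n

theorem xc_succ {N : ℕ} (c : Fin N → ℂ) (i : Fin N) : xc N c (i + 1) = c i := by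
  unfold xc
  rw [if_neg (Nat.succ_ne_zero _), xa_apply]

theorem xc_zero {N M : ℕ} (c : Fin N → ℂ) (hc : ∀ i : Fin N, (i : ℕ) + 1 < M → c i = 0) (n : ℕ)
    (hn : n < M) : xc N c n = 0 := by
  unfold xc
  split_ifs with h
  · rfl
  · unfold xa
    split_ifs with h2
    · exact hc ⟨n - 1, h2⟩ (by
        show n - 1 + 1 < M
        omega)
    · rfl

theorem DF_eq (N : ℕ) (c : Fin N → ℂ) (s : ℂ) : DF N c s = DPl N (xc N c) s := by
  unfold DF DPl
  rw [fin_sum fun k => xc N c k * (k : ℂ) ^ (-s)]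
  exact Finset.sum_congr rfl fun i _ => by rw [xc_succ]

end LOG_

open LOG_ in
theorem p_LOG (h_EST : T_EST) (h_WMI : T_WMI) : T_LOG := by
  intro ε₀ hε₀
  obtain ⟨ε, hε, hε1, hεε⟩ : ∃ ε : ℝ, 0 < ε ∧ ε ≤ 1 ∧ ε ≤ ε₀ :=
    ⟨min ε₀ 1, lt_min hε₀ one_pos, min_le_right _ _, min_le_left _ _⟩
  obtain ⟨K₁, N₁, h₁⟩ := almost_all_D (ε := ε / 2) (by positivity)
  obtain ⟨N₂, hN₂⟩ := exists_nat_ge (4 / ε)
  obtain ⟨K₂, hK₂⟩ := exists_nat_ge (144 / ε)
  refine ⟨K₁ + K₂, max N₁ N₂ + 1, fun N hN => ?_⟩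
  have hNa : N₁ ≤ N := (le_max_left _ _).trans ((Nat.le_succ _).trans hN)
  have hNb : N₂ ≤ N := (le_max_right _ _).trans ((Nat.le_succ _).trans hN)
  have hN1 : 1 ≤ N := (Nat.le_add_left _ _).trans hN
  obtain ⟨V, hV, hVa⟩ := h₁ N hNa
  have hN0 : (0 : ℝ) ≤ N := Nat.cast_nonneg N
  have h4 : 4 ≤ ε * N := by
    have e1 : 4 / ε ≤ N := hN₂.trans (by exact_mod_cast hNb)
    rw [div_le_iff₀ hε] at e1
    linarith
  obtain ⟨M, hM⟩ : ∃ M, M = ⌊ε * N / 2⌋₊ := ⟨_, rfl⟩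
  have hM1 : (M : ℝ) ≤ ε * N / 2 := by
    rw [hM]
    exact Nat.floor_le (by positivity)
  have hM2 : ε * N / 2 < M + 1 := by
    rw [hM]
    exact Nat.lt_floor_add_one _
  have hM3 : ε * N / 4 ≤ M := by linarith
  have hM4 : (1 : ℝ) ≤ M := by linarith
  have hM5 : 1 ≤ M := by exact_mod_cast hM4
  have hM6 : M ≤ N := by
    have : (M : ℝ) ≤ N := by nlinarith
    exact_mod_cast this
  obtain ⟨U, hUV, hU, hUc⟩ := h_WMI N M V hM5
  refine ⟨U, ?_, ?_⟩
  · have e1 : (1 - ε₀) * N ≤ (1 - ε) * N := by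
      have : 1 - ε₀ ≤ 1 - ε := by linarith
      exact mul_le_mul_of_nonneg_right this hN0
    nlinarith
  · intro c hc
    obtain ⟨-, h2⟩ := hVa c (hUV hc)
    have h3 := h_EST N M (xc N c) hM5 hM6 (xc_zero c (hUc c hc))
    have hQB : 0 ≤ QB N (xc N c) := integral_nonneg fun t => by positivity
    have h5 : 36 * ((N : ℝ) / M) ≤ ((K₁ + K₂ : ℕ) : ℝ) := by
      have e1 : (N : ℝ) / M ≤ 4 / ε := by
        rw [div_le_div_iff₀ (by linarith) hε]
        linarith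
      have e2 : 36 * (4 / ε) = 144 / ε := by ring
      push_cast
      have e3 : (0 : ℝ) ≤ K₁ := Nat.cast_nonneg _
      linarith
    constructor
    · simp_rw [DF_eq]
      rw [QP_mellin, QB_mellin]
      have hp : (0 : ℝ) < 2 * Real.pi := by positivity
      have e1 : QP N (xc N c) ≤ ((K₁ + K₂ : ℕ) : ℝ) * QB N (xc N c) :=
        h3.trans (mul_le_mul_of_nonneg_right h5 hQB)
      calc 2 * Real.pi * QP N (xc N c) ≤
            2 * Real.pi * (((K₁ + K₂ : ℕ) : ℝ) * QB N (xc N c)) :=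
            mul_le_mul_of_nonneg_left e1 hp.le
        _ = _ := by ring
    · refine h2.trans ?_
      have hl : 0 ≤ Real.log N := Real.log_nonneg (by exact_mod_cast hN1)
      have e1 : (K₁ : ℝ) ≤ ((K₁ + K₂ : ℕ) : ℝ) := by
        exact_mod_cast Nat.le_add_right _ _
      refine mul_le_mul_of_nonneg_right ?_ (integral_nonneg fun t => by positivity)
      exact mul_le_mul_of_nonneg_right e1 hl

end Pool.Agent.NBE
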