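import Pool.Agent.NBE.Targets

/-!
# NBE, job MOB: the sum of `μ n / n` is at most `1` in absolute value
-/

set_option autoImplicit false

open MeasureTheory Complex Set Filter Topology
open scoped ENNReal InnerProductSpace ComplexConjugate

namespace Pool.Agent.NBE

open Pool.Agent.NBL Pool.Agent.NBR

namespace MOB_

theorem fr_nonneg (L n : ℕ) : 0 ≤ (L : ℝ) / n - ((L / n : ℕ) : ℝ) := by
  have h : ((L / n : ℕ) : ℝ) ≤ (L : ℝ) / n := Nat.cast_div_le
  linarith

theorem fr_le_one (L n : ℕ) (hn : 1 ≤ n) : (L : ℝ) / n - ((L / n : ℕ) : ℝ) ≤ 1 := by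
  have hn0 : (0 : ℝ) < n := by exact_mod_cast hn
  have h : L < n * (L / n + 1) := Nat.lt_mul_div_succ L hn
  have h2 : (L : ℝ) ≤ n * (((L / n : ℕ) : ℝ) + 1) := by exact_mod_cast h.le
  have h3 : (L : ℝ) / n ≤ ((L / n : ℕ) : ℝ) + 1 := by
    rw [div_le_iff₀ hn0, mul_comm]
    exact h2
  linarith

end MOB_

open MOB_ in
theorem p_MOB (h_FLR : T_FLR) : T_MOB := by
  intro L
  rcases Nat.eq_zero_or_pos L with hL | hL
  · subst hL
    simp
  have hL0 : (0 : ℝ) < L := by exact_mod_cast hL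
  have h1 : ∑ n ∈ Finset.Icc 1 L, (ArithmeticFunction.moebius n : ℝ) * ((L / n : ℕ) : ℝ) = 1 := by
    have h := h_FLR L L le_rfl
    rw [if_pos (show 1 ≤ L from hL)] at h
    have h' := congrArg (fun z : ℤ => (z : ℝ)) h
    simp only [Int.cast_sum, Int.cast_mul, Int.cast_natCast, Int.cast_one] at h'
    exact h'
  have h2 : (L : ℝ) * ∑ n ∈ Finset.Icc 1 L, (ArithmeticFunction.moebius n : ℝ) / n =
      1 + ∑ n ∈ Finset.Icc 1 L, (ArithmeticFunction.moebius n : ℝ) *
        ((L : ℝ) / n - ((L / n : ℕ) : ℝ)) := by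
    rw [← h1, ← Finset.sum_add_distrib, Finset.mul_sum]
    refine Finset.sum_congr rfl fun n _ => ?_
    ring
  have h3 : |∑ n ∈ Finset.Icc 1 L, (ArithmeticFunction.moebius n : ℝ) *
      ((L : ℝ) / n - ((L / n : ℕ) : ℝ))| ≤ (L : ℝ) - 1 := by
    refine (Finset.abs_sum_le_sum_abs _ _).trans ?_
    have h4 : ∀ n ∈ Finset.Icc 1 L, |(ArithmeticFunction.moebius n : ℝ) *
        ((L : ℝ) / n - ((L / n : ℕ) : ℝ))| ≤ 1 - (if n = 1 then (1 : ℝ) else 0) := by
      intro n hn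
      rw [Finset.mem_Icc] at hn
      by_cases h5 : n = 1
      · subst h5
        simp
      · rw [if_neg h5, sub_zero, abs_mul, abs_of_nonneg (fr_nonneg L n)]
        have h6 : |(ArithmeticFunction.moebius n : ℝ)| ≤ 1 := by
          have h7 : |ArithmeticFunction.moebius n| ≤ 1 := ArithmeticFunction.abs_moebius_le_one
          exact_mod_cast h7
        calc |(ArithmeticFunction.moebius n : ℝ)| * ((L : ℝ) / n - ((L / n : ℕ) : ℝ))
            ≤ 1 * 1 := mul_le_mul h6 (fr_le_one L n hn.1) (fr_nonneg L n) zero_le_one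
          _ = 1 := one_mul 1
    refine (Finset.sum_le_sum h4).trans (le_of_eq ?_)
    rw [Finset.sum_sub_distrib, Finset.sum_ite_eq' (Finset.Icc 1 L) 1, if_pos
      (Finset.mem_Icc.2 ⟨le_rfl, hL⟩)]
    simp
  have h8 : |(L : ℝ) * ∑ n ∈ Finset.Icc 1 L, (ArithmeticFunction.moebius n : ℝ) / n| ≤ L := by
    rw [h2]
    refine (abs_add_le _ _).trans ?_
    rw [abs_one]
    linarith
  rw [abs_mul, abs_of_pos hL0] at h8
  have h9 : (L : ℝ) * |∑ n ∈ Finset.Icc 1 L, (ArithmeticFunction.moebius n : ℝ) / n| ≤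
      L * 1 := by
    rw [mul_one]
    exact h8
  exact le_of_mul_le_mul_left h9 hL0

end Pool.Agent.NBE
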