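import Mathlib
import Pool.Agent.NBE.Targets

set_option autoImplicit false

open MeasureTheory Complex Set Filter Topology
open scoped ENNReal InnerProductSpace ComplexConjugate

namespace Pool.Agent.NBE

open Pool.Agent.NBL Pool.Agent.NBR

namespace PTW_

lemma fl_eq (k : ℕ) {s : ℝ} (hs : 0 < s) (x : ℂ) :
    x * ((⌊1 / ((k : ℝ) * s)⌋₊ : ℕ) : ℂ) = x / k / s - x * nb k s := by
  have h0 : (0 : ℝ) ≤ 1 / ((k : ℝ) * s) := by positivity
  have h1 : ((⌊1 / ((k : ℝ) * s)⌋₊ : ℕ) : ℝ) =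
      1 / ((k : ℝ) * s) - Int.fract (1 / ((k : ℝ) * s)) := by
    rw [natCast_floor_eq_intCast_floor h0]
    have := Int.floor_add_fract (1 / ((k : ℝ) * s))
    linarith
  have h2 : ((⌊1 / ((k : ℝ) * s)⌋₊ : ℕ) : ℂ) =
      ((1 / ((k : ℝ) * s) - Int.fract (1 / ((k : ℝ) * s)) : ℝ) : ℂ) := by
    rw [← h1]; push_cast; rfl
  rw [h2]
  unfold nb
  push_cast
  rcases Nat.eq_zero_or_pos k with hk | hk
  · subst hk; simp
  · have hk' : (k : ℂ) ≠ 0 := by exact_mod_cast hk.ne'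
    have hs' : (s : ℂ) ≠ 0 := by exact_mod_cast hs.ne'
    field_simp

lemma fl_zero {M k n : ℕ} {t : ℝ} (hM : 1 ≤ M) (hk : M ≤ k) (ht : 0 < t)
    (hn : ⌊1 / ((M : ℝ) * t)⌋₊ < n) : ⌊1 / ((k : ℝ) * (n * t))⌋₊ = 0 := by
  have hM0 : (0 : ℝ) < M := by exact_mod_cast hM
  have hn1 : (0 : ℝ) < n := by
    have : 0 < n := by omega
    exact_mod_cast this
  have hk0 : (M : ℝ) ≤ k := by exact_mod_cast hk
  have hk1 : (0 : ℝ) < k := lt_of_lt_of_le hM0 hk0
  have h1 : 1 / ((M : ℝ) * t) < n := (Nat.floor_lt (by positivity)).1 hn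
  rw [Nat.floor_eq_zero]
  rw [div_lt_iff₀ (by positivity)] at h1
  rw [div_lt_iff₀ (by positivity)]
  have h2 : (n : ℝ) * (M * t) ≤ k * (n * t) := by
    have : 0 ≤ (n : ℝ) * t := by positivity
    nlinarith
  linarith

end PTW_

open PTW_ in
theorem p_PTW (h_INV : T_INV) (h_MOB : T_MOB) : T_PTW := by
  intro N M L c t hM hc ht hL
  have hM0 : (0 : ℝ) < M := by exact_mod_cast hM
  set X : ℕ := ⌊1 / ((M : ℝ) * t)⌋₊ with hX
  have hXL : X ≤ L := by
    have : X < L + 1 := by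
      rw [hX, Nat.floor_lt (by positivity)]
      push_cast
      exact hL
    omega
  have hsub : Finset.Icc 1 X ⊆ Finset.Icc 1 L := Finset.Icc_subset_Icc le_rfl hXL
  set d : ℂ := ∑ k ∈ Finset.Icc 1 N, c k / k with hd
  rw [h_INV N M L c t hM hc ht hL]
  have e1 : ∑ n ∈ Finset.Icc 1 L, (ArithmeticFunction.moebius n : ℂ) *
      ∑ k ∈ Finset.Icc 1 N, c k * ((⌊1 / ((k : ℝ) * (n * t))⌋₊ : ℕ) : ℂ) =
      ∑ n ∈ Finset.Icc 1 X, (ArithmeticFunction.moebius n : ℂ) *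
      ∑ k ∈ Finset.Icc 1 N, c k * ((⌊1 / ((k : ℝ) * (n * t))⌋₊ : ℕ) : ℂ) := by
    symm
    apply Finset.sum_subset hsub
    intro n hn hn'
    have hnX : X < n := by
      simp only [Finset.mem_Icc, not_and, not_le] at hn hn'
      exact hn' hn.1
    have : ∑ k ∈ Finset.Icc 1 N, c k * ((⌊1 / ((k : ℝ) * (n * t))⌋₊ : ℕ) : ℂ) = 0 := by
      apply Finset.sum_eq_zero
      intro k _
      rcases lt_or_ge k M with hk | hk
      · rw [hc k hk, zero_mul]
      · rw [fl_zero hM hk ht hnX]; simp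
    rw [this, mul_zero]
  have e2 : ∀ n ∈ Finset.Icc 1 X, (ArithmeticFunction.moebius n : ℂ) *
      ∑ k ∈ Finset.Icc 1 N, c k * ((⌊1 / ((k : ℝ) * (n * t))⌋₊ : ℕ) : ℂ) =
      (((ArithmeticFunction.moebius n : ℝ) / n : ℝ) : ℂ) * (d / t) -
        (ArithmeticFunction.moebius n : ℂ) * ∑ k ∈ Finset.Icc 1 N, c k * nb k (n * t) := by
    intro n hn
    have hn1 : 1 ≤ n := (Finset.mem_Icc.1 hn).1
    have hn0 : (0 : ℝ) < n := by exact_mod_cast hn1
    have hnt : (0 : ℝ) < n * t := by positivity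
    have h1 : ∑ k ∈ Finset.Icc 1 N, c k * ((⌊1 / ((k : ℝ) * (n * t))⌋₊ : ℕ) : ℂ) =
        d / ((n * t : ℝ) : ℂ) - ∑ k ∈ Finset.Icc 1 N, c k * nb k (n * t) := by
      rw [hd, Finset.sum_div, ← Finset.sum_sub_distrib]
      exact Finset.sum_congr rfl fun k _ => fl_eq k hnt (c k)
    rw [h1]
    have hn' : (n : ℂ) ≠ 0 := by exact_mod_cast hn0.ne'
    have ht' : (t : ℂ) ≠ 0 := by exact_mod_cast ht.ne'
    push_cast
    field_simp
  rw [e1, Finset.sum_congr rfl e2, Finset.sum_sub_distrib, ← Finset.sum_mul, ← Complex.ofReal_sum]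
  refine (norm_sub_le _ _).trans (add_le_add ?_ ?_)
  · rw [norm_mul, norm_div, Complex.norm_real, Complex.norm_real, Real.norm_eq_abs,
      Real.norm_eq_abs, abs_of_pos ht]
    have h3 := h_MOB X
    have h4 : 0 ≤ ‖d‖ / t := by positivity
    nlinarith
  · refine (norm_sum_le _ _).trans ?_
    refine (Finset.sum_le_sum (g := fun n : ℕ => ‖∑ k ∈ Finset.Icc 1 N, c k * nb k (n * t)‖)
      ?_).trans (Finset.sum_le_sum_of_subset_of_nonneg hsub fun _ _ _ => norm_nonneg _)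
    intro n _
    rw [norm_mul]
    have h5 : ‖((ArithmeticFunction.moebius n : ℤ) : ℂ)‖ ≤ 1 := by
      rw [Complex.norm_intCast]
      exact_mod_cast ArithmeticFunction.abs_moebius_le_one
    exact mul_le_of_le_one_left (norm_nonneg _) h5

end Pool.Agent.NBE
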