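import Pool.Agent.NBE.Targets
import Pool.Agent.NBM.P_SPE

/-!
# NBE: the target `T_SPC` (eigenvalues and traces)
-/

set_option autoImplicit false

open MeasureTheory Complex Set Filter Topology
open scoped ENNReal InnerProductSpace ComplexConjugate

namespace Pool.Agent.NBE

open Pool.Agent.NBL Pool.Agent.NBR

namespace SPC_

/-- the span of the vectors with index in `J` -/
lemma span_part {m : ℕ} (v : OrthonormalBasis (Fin m) ℂ (EuclideanSpace ℂ (Fin m)))
    (J : Finset (Fin m)) : ∃ V : Submodule ℂ (Fin m → ℂ), Module.finrank ℂ V = J.card ∧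
      ∀ a ∈ V, ∃ x : EuclideanSpace ℂ (Fin m), (∀ i, x i = a i) ∧ ∀ i, i ∉ J → ⟪v i, x⟫_ℂ = 0 := by
  set b : J → EuclideanSpace ℂ (Fin m) := fun i => v i with hb
  have hbi : LinearIndependent ℂ b := v.orthonormal.linearIndependent.comp _ Subtype.val_injective
  set e := WithLp.linearEquiv 2 ℂ (Fin m → ℂ) with he
  set U : Submodule ℂ (EuclideanSpace ℂ (Fin m)) := Submodule.span ℂ (range b) with hU
  refine ⟨U.map e.toLinearMap, ?_, ?_⟩
  · rw [LinearEquiv.finrank_map_eq e U, hU, finrank_span_eq_card hbi, Fintype.card_coe]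
  · intro a ha
    obtain ⟨x, hx, rfl⟩ := ha
    refine ⟨x, fun i => rfl, fun i hi => ?_⟩
    have h1 : U ≤ LinearMap.ker (innerSL ℂ (v i)).toLinearMap := by
      rw [hU, Submodule.span_le]
      rintro y ⟨j, rfl⟩
      change ⟪v i, v j⟫_ℂ = 0
      apply v.orthonormal.2
      intro hij
      apply hi
      rw [hij]
      exact j.2
    exact h1 hx

end SPC_

theorem p_SPC : T_SPC := by
  intro k m X Λ hΛ hX
  obtain ⟨v, lam, hlam0, hq, htr⟩ := NBM.p_SPE m
  rw [htr k] at hX
  classical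
  set J : Finset (Fin m) := Finset.univ.filter fun i => lam i ≤ Λ with hJ
  set L : Finset (Fin m) := Finset.univ.filter fun i => ¬ lam i ≤ Λ with hL
  have hc : J.card + L.card = m := by
    rw [hJ, hL, Finset.card_filter_add_card_filter_not, Finset.card_univ, Fintype.card_fin]
  have hLc : (L.card : ℝ) * Λ ^ k ≤ X := by
    calc (L.card : ℝ) * Λ ^ k = ∑ _i ∈ L, Λ ^ k := by
          rw [Finset.sum_const, nsmul_eq_mul]
      _ ≤ ∑ i ∈ L, lam i ^ k := by
          refine Finset.sum_le_sum fun i hi => ?_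
          rw [hL, Finset.mem_filter] at hi
          exact pow_le_pow_left₀ hΛ.le (not_le.1 hi.2).le k
      _ ≤ ∑ i, lam i ^ k :=
          Finset.sum_le_sum_of_subset_of_nonneg (Finset.subset_univ _) fun i _ _ =>
            pow_nonneg (hlam0 i) k
      _ ≤ X := hX
  obtain ⟨V, hV, hx⟩ := SPC_.span_part v J
  refine ⟨V, ?_, fun a ha => ?_⟩
  · rw [hV]
    have h1 : (L.card : ℝ) ≤ X / Λ ^ k := by
      rw [le_div_iff₀ (by positivity)]
      exact hLc
    have h2 : (J.card : ℝ) + L.card = m := by exact_mod_cast hc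
    linarith
  · obtain ⟨x, hxa, hx0⟩ := hx a ha
    have h1 : NBM.Qf m a = NBM.Qf m x := by
      congr 1
      exact funext fun i => (hxa i).symm
    have hn : ∑ i, ‖a i‖ ^ 2 = ∑ i, ‖⟪v i, x⟫_ℂ‖ ^ 2 := by
      rw [v.sum_sq_norm_inner_right x, EuclideanSpace.norm_sq_eq]
      exact Finset.sum_congr rfl fun i _ => by rw [hxa i]
    rw [h1, hq x, hn, Finset.mul_sum]
    refine Finset.sum_le_sum fun i _ => ?_
    by_cases hi : i ∈ J
    · rw [hJ, Finset.mem_filter] at hi
      exact mul_le_mul_of_nonneg_right hi.2 (by positivity)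
    · rw [hx0 i hi]
      simp

end Pool.Agent.NBE
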