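import Pool.Agent.NBE.Targets

/-!
# TWO: the two-sided inequality in codimension `N ^ θ`
-/

set_option autoImplicit false

open MeasureTheory Complex Set Filter Topology
open scoped ENNReal InnerProductSpace ComplexConjugate

namespace Pool.Agent.NBE

open Pool.Agent.NBL Pool.Agent.NBR

namespace TWO_

/-- the sequence of a vector, set to `0` at `0` -/
noncomputable def xb (N : ℕ) (c : Fin N → ℂ) (n : ℕ) : ℂ := if n = 0 then 0 else xa N c n

lemma DF_xb (N : ℕ) (c : Fin N → ℂ) (s : ℂ) : DF N c s = DPl N (xb N c) s := by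
  unfold DF DPl
  rw [fin_sum fun n => xb N c n * (n : ℂ) ^ (-s)]
  refine Finset.sum_congr rfl fun i _ => ?_
  unfold xb
  rw [if_neg (Nat.succ_ne_zero _), xa_apply]

lemma xb_zero {N M : ℕ} {c : Fin N → ℂ} (h : ∀ i : Fin N, (i : ℕ) + 1 < M → c i = 0) :
    ∀ n < M, xb N c n = 0 := by
  intro n hn
  unfold xb xa
  split_ifs with h1 h2
  · rfl
  · refine h _ ?_
    change n - 1 + 1 < M
    omega
  · rfl

/-- eventual growth -/
lemma grow (a C : ℝ) (ha : 0 < a) : ∀ᶠ N : ℕ in atTop, C ≤ (N : ℝ) ^ a :=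
  ((tendsto_rpow_atTop ha).comp tendsto_natCast_atTop_atTop).eventually_ge_atTop C

end TWO_

open TWO_ in
/-- **TWO** -/
theorem p_TWO (h_EST : T_EST) (h_WMI : T_WMI) (h_UPT : T_UPT) (h4 : NBM.Tr 2 1) : T_TWO := by
  intro ε θ hε hθ hεθ
  set α : ℝ := max 0 (1 - 2 * ε) with hα
  have hα0 : 0 ≤ α := le_max_left _ _
  have hα1 : 1 - 2 * ε ≤ α := le_max_right _ _
  have hαθ : α < θ := max_lt hθ hεθ
  set θ' : ℝ := (α + θ) / 2 with hθ'
  have h1 : α < θ' := by rw [hθ']; linarith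
  have h2 : θ' < θ := by rw [hθ']; linarith
  obtain ⟨N₁, hN₁⟩ := h_UPT 2 h4 ε θ' hε (by linarith) (by push_cast; linarith)
  obtain ⟨N₂, hN₂⟩ := eventually_atTop.1 ((grow (2 * ε) 36 (by linarith)).and
    (grow (θ - θ') 37 (by linarith)))
  refine ⟨max (max N₁ N₂) 1, fun N hN => ?_⟩
  have hNa : N₁ ≤ N := (le_max_left _ _).trans ((le_max_left _ _).trans hN)
  have hNb : N₂ ≤ N := (le_max_right _ _).trans ((le_max_left _ _).trans hN)
  have hN1 : 1 ≤ N := (le_max_right _ _).trans hN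
  have hx1 : (1 : ℝ) ≤ N := by exact_mod_cast hN1
  have hx0 : (0 : ℝ) < N := by linarith
  obtain ⟨g1, g2⟩ := hN₂ N hNb
  obtain ⟨V, hV, hVc⟩ := hN₁ N hNa
  set P : ℝ := (N : ℝ) ^ (1 - 2 * ε) with hP
  have hP0 : 0 < P := Real.rpow_pos_of_pos hx0 _
  have hPN : P * (N : ℝ) ^ (2 * ε) = N := by
    rw [hP, ← Real.rpow_add hx0]
    rw [show 1 - 2 * ε + 2 * ε = 1 by ring, Real.rpow_one]
  have hE0 : 0 < (N : ℝ) ^ (2 * ε) := Real.rpow_pos_of_pos hx0 _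
  set M : ℕ := max 1 ⌈36 * P⌉₊ with hM
  have hM1 : 1 ≤ M := le_max_left _ _
  have hM0 : (0 : ℝ) < M := by exact_mod_cast hM1
  have hMP : 36 * P ≤ M := (Nat.le_ceil _).trans (by exact_mod_cast le_max_right _ _)
  have hMN : M ≤ N := by
    refine max_le hN1 (Nat.ceil_le.2 ?_)
    calc 36 * P ≤ (N : ℝ) ^ (2 * ε) * P := mul_le_mul_of_nonneg_right g1 hP0.le
      _ = N := by rw [mul_comm, hPN]
  have hMc : (M : ℝ) - 1 ≤ 36 * P := by
    have h3 : (⌈36 * P⌉₊ : ℝ) < 36 * P + 1 := Nat.ceil_lt_add_one (by positivity)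
    have h4 : (M : ℝ) = max 1 (⌈36 * P⌉₊ : ℝ) := by rw [hM]; push_cast; rfl
    rw [h4]
    rcases max_choice (1 : ℝ) (⌈36 * P⌉₊ : ℝ) with h | h
    · rw [h]
      linarith
    · rw [h]
      linarith
  obtain ⟨U, hUV, hU, hUc⟩ := h_WMI N M V hM1
  refine ⟨U, ?_, fun c hc => ?_⟩
  · have e1 : P ≤ (N : ℝ) ^ θ' := Real.rpow_le_rpow_of_exponent_le hx1 (by linarith)
    have e2 : (N : ℝ) ^ θ = (N : ℝ) ^ (θ - θ') * (N : ℝ) ^ θ' := by
      rw [← Real.rpow_add hx0]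
      congr 1
      ring
    have e3 : 37 * (N : ℝ) ^ θ' ≤ (N : ℝ) ^ θ := by
      rw [e2]
      exact mul_le_mul_of_nonneg_right g2 (Real.rpow_nonneg hx0.le _)
    linarith
  · refine ⟨?_, hVc c (hUV hc)⟩
    simp_rw [DF_xb]
    rw [QP_mellin, QB_mellin]
    have h3 := h_EST N M (xb N c) hM1 hMN (xb_zero (hUc c hc))
    have hq := NBL.QB_nonneg N (xb N c)
    have h5 : 36 * ((N : ℝ) / M) ≤ (N : ℝ) ^ (2 * ε) := by
      rw [← mul_div_assoc, div_le_iff₀ hM0]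
      calc 36 * (N : ℝ) = 36 * (P * (N : ℝ) ^ (2 * ε)) := by rw [hPN]
        _ = (N : ℝ) ^ (2 * ε) * (36 * P) := by ring
        _ ≤ (N : ℝ) ^ (2 * ε) * M := mul_le_mul_of_nonneg_left hMP hE0.le
    have h6 : QP N (xb N c) ≤ (N : ℝ) ^ (2 * ε) * QB N (xb N c) :=
      h3.trans (mul_le_mul_of_nonneg_right h5 hq)
    have hpi := Real.pi_pos
    rw [Real.rpow_neg hx0.le]
    calc ((N : ℝ) ^ (2 * ε))⁻¹ * (2 * Real.pi * QP N (xb N c)) ≤
        ((N : ℝ) ^ (2 * ε))⁻¹ * (2 * Real.pi * ((N : ℝ) ^ (2 * ε) * QB N (xb N c))) := by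
          refine mul_le_mul_of_nonneg_left ?_ (inv_nonneg.2 hE0.le)
          exact mul_le_mul_of_nonneg_left h6 (by positivity)
      _ = 2 * Real.pi * QB N (xb N c) := by
          field_simp

end Pool.Agent.NBE
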