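import Mathlib
import Pool.Agent.NBE.Targets

/-!
# UPT: traces bound multiplication by zeta outside a small subspace
-/

set_option autoImplicit false

open MeasureTheory Complex Set Filter Topology
open scoped ENNReal InnerProductSpace ComplexConjugate

namespace Pool.Agent.NBE

open Pool.Agent.NBL Pool.Agent.NBR

namespace UPT_

lemma eDF (m : ℕ) (a : Fin m → ℂ) (s : ℂ) :
    DF (m + 1) (Lm m a) s = DPl (m + 1) (dcf m (xa m a)) s := by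
  unfold DPl DF
  rw [fin_sum]
  rfl

lemma core (m : ℕ) (Λ : ℝ) (hΛ : 0 ≤ Λ) (a : Fin m → ℂ)
    (h : NBM.Qf m a ≤ Λ * ∑ i, ‖a i‖ ^ 2) :
    ∫ t : ℝ, ‖riemannZeta (1 / 2 + t * I) * DF (m + 1) (Lm m a) (1 / 2 + t * I)‖ ^ 2 /
        (1 / 4 + t ^ 2) ≤
      (2 * Λ) * ∫ t : ℝ, ‖DF (m + 1) (Lm m a) (1 / 2 + t * I)‖ ^ 2 / (1 / 4 + t ^ 2) := by
  have hpi := Real.pi_pos
  simp_rw [eDF]
  rw [QP_mellin, QB_mellin, QB_dcf, QP_dcf]
  have eQ : NBM.Qf m a = Q m (xa m a) := by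
    unfold NBM.Qf Q
    congr 1
    funext t
    rw [fin_sum fun n => xa m a n * ((n * NBL.h n t : ℝ) : ℂ)]
    congr 2
    exact Finset.sum_congr rfl fun i _ => by rw [xa_apply]
  have eS : ∑ i, ‖a i‖ ^ 2 = ∑ n ∈ Finset.Icc 1 m, ‖xa m a n‖ ^ 2 := by
    rw [fin_sum fun n => ‖xa m a n‖ ^ 2]
    exact Finset.sum_congr rfl fun i _ => by rw [xa_apply]
  rw [eQ, eS] at h
  obtain ⟨r1, r2⟩ := Rm_two m (xa m a)
  have h3 : Q m (xa m a) ≤ 2 * Λ * Rm m fun n => n * xa m a n := by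
    calc Q m (xa m a) ≤ Λ * ∑ n ∈ Finset.Icc 1 m, ‖xa m a n‖ ^ 2 := h
      _ ≤ Λ * (2 * Rm m fun n => n * xa m a n) := by
          refine mul_le_mul_of_nonneg_left ?_ hΛ
          linarith
      _ = _ := by ring
  calc 2 * Real.pi * Q m (xa m a)
      ≤ 2 * Real.pi * (2 * Λ * Rm m fun n => n * xa m a n) :=
        mul_le_mul_of_nonneg_left h3 (by positivity)
    _ = _ := by ring

lemma ev (K θ₁ θ : ℝ) (hθ : 0 < θ) (h : θ₁ < θ) :
    ∃ N₀ : ℕ, ∀ N : ℕ, N₀ ≤ N → K * (N : ℝ) ^ θ₁ + 1 ≤ (N : ℝ) ^ θ := by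
  have t0 : Tendsto (fun N : ℕ => (N : ℝ)) atTop atTop := tendsto_natCast_atTop_atTop
  have t1 : Tendsto (fun N : ℕ => (N : ℝ) ^ (-(θ - θ₁))) atTop (𝓝 0) :=
    (tendsto_rpow_neg_atTop (by linarith : 0 < θ - θ₁)).comp t0
  have t2 : Tendsto (fun N : ℕ => (N : ℝ) ^ (-θ)) atTop (𝓝 0) :=
    (tendsto_rpow_neg_atTop hθ).comp t0
  have t3 : Tendsto (fun N : ℕ => K * (N : ℝ) ^ (-(θ - θ₁)) + (N : ℝ) ^ (-θ)) atTop
      (𝓝 0) := by
    simpa using (t1.const_mul K).add t2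
  obtain ⟨N₁, hN₁⟩ := eventually_atTop.1
    ((t3.eventually (gt_mem_nhds (by norm_num : (0 : ℝ) < 1))))
  refine ⟨max N₁ 1, fun N hN => ?_⟩
  have h1 := hN₁ N ((le_max_left _ _).trans hN)
  have h2 : 1 ≤ N := (le_max_right _ _).trans hN
  have hN0 : (0 : ℝ) < N := by exact_mod_cast (by omega : 0 < N)
  have hp : 0 < (N : ℝ) ^ θ := Real.rpow_pos_of_pos hN0 _
  have e1 : (N : ℝ) ^ (-(θ - θ₁)) * (N : ℝ) ^ θ = (N : ℝ) ^ θ₁ := by
    rw [← Real.rpow_add hN0]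
    congr 1
    ring
  have e2 : (N : ℝ) ^ (-θ) * (N : ℝ) ^ θ = 1 := by
    rw [← Real.rpow_add hN0]
    simp
  calc K * (N : ℝ) ^ θ₁ + 1
      = (K * (N : ℝ) ^ (-(θ - θ₁)) + (N : ℝ) ^ (-θ)) * (N : ℝ) ^ θ := by
        rw [add_mul, mul_assoc, e1, e2]
    _ ≤ 1 * (N : ℝ) ^ θ := mul_le_mul_of_nonneg_right h1.le hp.le
    _ = _ := one_mul _

end UPT_

open UPT_ in
/-- traces bound multiplication by zeta outside a small subspace -/
theorem p_UPT (h_SPC : T_SPC) : T_UPT := by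
  intro k hT ε θ hε hθ hlt
  set η : ℝ := (θ - (1 - k * ε)) / 2 with hη
  have hη0 : 0 < η := by rw [hη]; linarith
  obtain ⟨C, hC⟩ := hT η hη0
  obtain ⟨N₁, hN₁⟩ := ev (2 ^ k * |C|) (1 + η - k * ε) θ hθ (by rw [hη]; linarith)
  refine ⟨max N₁ 2, fun N hN => ?_⟩
  have hNa : N₁ ≤ N := (le_max_left _ _).trans hN
  have hN2 : 2 ≤ N := (le_max_right _ _).trans hN
  obtain ⟨m, rfl⟩ : ∃ m, N = m + 1 := ⟨N - 1, by omega⟩
  have hm1 : 1 ≤ m := by omega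
  have hm0 : (0 : ℝ) < m := by exact_mod_cast (by omega : 0 < m)
  have hcast : ((m + 1 : ℕ) : ℝ) = m + 1 := by push_cast; ring
  have hev := hN₁ (m + 1) hNa
  set N : ℝ := ((m + 1 : ℕ) : ℝ) with hNd
  have hN0 : 0 < N := by rw [hcast]; linarith
  have hmN : (m : ℝ) ≤ N := by rw [hcast]; linarith
  set Λ : ℝ := N ^ ε / 2 with hΛ
  have hΛ0 : 0 < Λ := by rw [hΛ]; positivity
  obtain ⟨V, hV, hVa⟩ := h_SPC k m (C * (m : ℝ) ^ (1 + η)) Λ hΛ0 (hC m hm1)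
  refine ⟨V.map (Lm m), ?_, ?_⟩
  · rw [← (Submodule.equivMapOfInjective (Lm m) (Lm_inj m) V).finrank_eq]
    refine le_trans ?_ hV
    have e1 : Λ ^ k = N ^ (k * ε) / 2 ^ k := by
      rw [hΛ, div_pow, ← Real.rpow_natCast (N ^ ε) k, ← Real.rpow_mul hN0.le, mul_comm ε]
    have e2 : C * (m : ℝ) ^ (1 + η) / Λ ^ k ≤ 2 ^ k * |C| * N ^ (1 + η - k * ε) := by
      rw [e1, Real.rpow_sub hN0, div_div_eq_mul_div, mul_div_assoc']
      refine div_le_div_of_nonneg_right ?_ (Real.rpow_nonneg hN0.le _)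
      have h1 : C * (m : ℝ) ^ (1 + η) ≤ |C| * N ^ (1 + η) :=
        mul_le_mul (le_abs_self C) (Real.rpow_le_rpow hm0.le hmN (by linarith))
          (Real.rpow_nonneg hm0.le _) (abs_nonneg C)
      have h2 := mul_le_mul_of_nonneg_right h1 (by positivity : (0 : ℝ) ≤ 2 ^ k)
      linarith
    have e3 : (m : ℝ) = N - 1 := by rw [hcast]; ring
    linarith
  · rintro c ⟨a, ha, rfl⟩
    have h1 := core m Λ hΛ0.le a (hVa a ha)
    have e4 : 2 * Λ = N ^ ε := by rw [hΛ]; ring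
    rw [e4] at h1
    exact h1

end Pool.Agent.NBE
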