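import Pool.Agent.NBE.Targets

/-!
# NBE.WMI: intersection of subspaces
-/

set_option autoImplicit false

open MeasureTheory Complex Set Filter Topology
open scoped ENNReal InnerProductSpace ComplexConjugate

namespace Pool.Agent.NBE

open Pool.Agent.NBL Pool.Agent.NBR

theorem p_WMI : T_WMI := by
  intro N M V hM
  classical
  set φ : (Fin N → ℂ) →ₗ[ℂ] ({i : Fin N // (i : ℕ) + 1 < M} → ℂ) :=
    LinearMap.funLeft ℂ ℂ (fun i : {i : Fin N // (i : ℕ) + 1 < M} => (i : Fin N)) with hφ
  set ψ : V →ₗ[ℂ] ({i : Fin N // (i : ℕ) + 1 < M} → ℂ) := φ.comp V.subtype with hψ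
  refine ⟨(LinearMap.ker ψ).map V.subtype, Submodule.map_subtype_le _ _, ?_, ?_⟩
  · have h1 := LinearMap.finrank_range_add_finrank_ker ψ
    have h2 := Submodule.finrank_le (LinearMap.range ψ)
    rw [Module.finrank_fintype_fun_eq_card ℂ] at h2
    have h4 : Fintype.card {i : Fin N // (i : ℕ) + 1 < M} ≤ M - 1 := by
      have h5 := Fintype.card_le_of_injective
        (fun i : {i : Fin N // (i : ℕ) + 1 < M} => (⟨(i : Fin N), by
          have := i.2
          omega⟩ : Fin (M - 1))) (by
          intro i j hij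
          simp only [Fin.mk.injEq] at hij
          exact Subtype.ext (Fin.ext hij))
      rwa [Fintype.card_fin] at h5
    rw [Submodule.finrank_map_subtype_eq]
    have h6 : Module.finrank ℂ V ≤ (M - 1) + Module.finrank ℂ (LinearMap.ker ψ) := by omega
    have h7 : (Module.finrank ℂ V : ℝ) ≤ ((M - 1 : ℕ) : ℝ) +
        Module.finrank ℂ (LinearMap.ker ψ) := by exact_mod_cast h6
    rw [Nat.cast_sub hM] at h7
    push_cast at h7
    linarith
  · intro c hc i hi
    obtain ⟨v, hv, rfl⟩ := Submodule.mem_map.1 hc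
    have h8 : ψ v = 0 := LinearMap.mem_ker.1 hv
    exact congrFun h8 ⟨i, hi⟩

end Pool.Agent.NBE
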